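import Mathlib

namespace Pool.Agent.Results.MP_170294_an.SteepEnd

open Set Polynomial

/-- Hausdorff difference at `x` on `[-1,1]`, parameter 1 -/
noncomputable def hdiff (f g : ℝ → ℝ) (x : ℝ) : ℝ :=
  max (sInf ((fun ξ => max |x - ξ| |f x - g ξ|) '' Icc (-1) 1))
    (sInf ((fun ξ => max |x - ξ| |f ξ - g x|) '' Icc (-1) 1))

/-- Hausdorff distance on `[-1,1]` -/
noncomputable def hdist (f g : ℝ → ℝ) : ℝ := sSup (hdiff f g '' Icc (-1) 1)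

/-- best Hausdorff approximation by polynomials of degree at most `n` -/
noncomputable def E (n : ℕ) (f : ℝ → ℝ) : ℝ :=
  sInf {r | ∃ p : ℝ[X], p.natDegree ≤ n ∧ r = hdist f fun x => p.eval x}

theorem hdiff_le (f g : ℝ → ℝ) (x : ℝ) (hx : x ∈ Icc (-1 : ℝ) 1) : hdiff f g x ≤ |f x - g x| := by
  refine max_le ?_ ?_ <;>
  · refine le_trans (csInf_le ⟨0, ?_⟩ (mem_image_of_mem _ hx)) (by simp)
    rintro _ ⟨ξ, -, rfl⟩
    exact (abs_nonneg _).trans (le_max_left _ _)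

theorem hdiff_nonneg (f g : ℝ → ℝ) (x : ℝ) : 0 ≤ hdiff f g x := by
  refine le_trans (Real.sInf_nonneg ?_) (le_max_left _ _)
  rintro _ ⟨ξ, -, rfl⟩
  exact (abs_nonneg _).trans (le_max_left _ _)

theorem E_abs (n : ℕ) (hn : 2 ≤ n) : E n (fun x => |x|) ≤ 1 / 8 := by
  refine le_trans (b := hdist (fun x => |x|) fun x => (X ^ 2 + C (1 / 8) : ℝ[X]).eval x)
    (csInf_le ⟨0, ?_⟩ ⟨X ^ 2 + C (1 / 8), ?_, rfl⟩) ?_
  · rintro _ ⟨p, -, rfl⟩
    refine Real.sSup_nonneg ?_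
    rintro _ ⟨x, -, rfl⟩
    exact hdiff_nonneg _ _ _
  · rw [natDegree_X_pow_add_C]; exact hn
  · refine Real.sSup_le ?_ (by norm_num)
    rintro _ ⟨x, hx, rfl⟩
    refine (hdiff_le _ _ x hx).trans ?_
    have h1 : |x| ≤ 1 := abs_le.2 hx
    have h0 := abs_nonneg x
    simp only [eval_add, eval_pow, eval_X, eval_C]
    rw [← sq_abs x, abs_le]
    constructor <;> nlinarith [sq_nonneg (|x| - 1 / 2)]

noncomputable def f0 (x : ℝ) : ℝ := max 0 (10 * x - 9)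

theorem f0_cont : Continuous f0 := by unfold f0; fun_prop

theorem cubic (a b c d ξ r : ℝ) (h0 : 3 / 4 ≤ ξ) (h1 : ξ ≤ 1)
    (h : ∀ x : ℝ, x = -3 / 4 ∨ x = -3 / 8 ∨ x = 3 / 8 ∨ x = 3 / 4 →
      |a + b * x + c * x ^ 2 + d * x ^ 3| ≤ r) :
    a + b * ξ + c * ξ ^ 2 + d * ξ ^ 3 ≤ 11 / 2 * r := by
  have p1 := abs_le.1 (h _ (Or.inl rfl))
  have p2 := abs_le.1 (h _ (Or.inr (Or.inl rfl)))
  have p3 := abs_le.1 (h _ (Or.inr (Or.inr (Or.inl rfl))))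
  have p4 := abs_le.1 (h _ (Or.inr (Or.inr (Or.inr rfl))))
  have r0 : 0 ≤ r := by linarith [p1.1, p1.2]
  have u1 : 0 ≤ ξ + 3 / 4 := by linarith
  have u2 : 0 ≤ ξ + 3 / 8 := by linarith
  have u3 : 0 ≤ ξ - 3 / 8 := by linarith
  have u4 : 0 ≤ ξ - 3 / 4 := by linarith
  have q1 := mul_le_mul_of_nonneg_left p1.1 (mul_nonneg (mul_nonneg u2 u3) u4)
  have q2 := mul_le_mul_of_nonneg_left p2.2 (mul_nonneg (mul_nonneg u1 u3) u4)
  have q3 := mul_le_mul_of_nonneg_left p3.1 (mul_nonneg (mul_nonneg u1 u2) u4)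
  have q4 := mul_le_mul_of_nonneg_left p4.2 (mul_nonneg (mul_nonneg u1 u2) u3)
  have t : 256 / 27 * ξ ^ 3 - 4 * ξ ≤ 11 / 2 := by nlinarith [mul_nonneg u1 (sub_nonneg.2 h1)]
  have t' := mul_le_mul_of_nonneg_right t r0
  linarith

theorem low (p : ℝ[X]) (hp : p.natDegree ≤ 3) : 7 / 50 ≤ hdist f0 fun x => p.eval x := by
  by_contra hlt
  push Not at hlt
  have hb : BddAbove (hdiff f0 (fun x => p.eval x) '' Icc (-1) 1) := by
    obtain ⟨c, hc⟩ := (isCompact_Icc (a := (-1 : ℝ)) (b := 1)).bddAbove_image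
      (f := fun x => |f0 x - p.eval x|) (f0_cont.sub p.continuous).abs.continuousOn
    refine ⟨c, ?_⟩
    rintro _ ⟨x, hx, rfl⟩
    exact (hdiff_le _ _ x hx).trans (hc ⟨x, hx, rfl⟩)
  have hx : ∀ x ∈ Icc (-1 : ℝ) 1, hdiff f0 (fun x => p.eval x) x < 7 / 50 := fun x hx =>
    (le_csSup hb ⟨x, hx, rfl⟩).trans_lt hlt
  have ne : (Icc (-1 : ℝ) 1).Nonempty := ⟨0, by norm_num⟩
  have ev : ∀ x : ℝ, p.eval x =
      p.coeff 0 + p.coeff 1 * x + p.coeff 2 * x ^ 2 + p.coeff 3 * x ^ 3 := by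
    intro x
    rw [eval_eq_sum_range' (Nat.lt_succ_of_le hp)]
    simp [Finset.sum_range_succ]
  obtain ⟨_, ⟨ξ, hξ, rfl⟩, h1⟩ := exists_lt_of_csInf_lt (ne.image _)
    (max_lt_iff.1 (hx 1 (by norm_num))).1
  obtain ⟨h2, h3⟩ := max_lt_iff.1 h1
  have f1 : f0 1 = 1 := by norm_num [f0]
  simp only [f1, ev] at h3
  have := cubic (p.coeff 0) (p.coeff 1) (p.coeff 2) (p.coeff 3) ξ (7 / 50)
    (by linarith [(abs_lt.1 h2).2]) hξ.2 fun x hx' => by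
      have hx1 : x ∈ Icc (-1 : ℝ) 1 ∧ x ≤ 3 / 4 := by
        rcases hx' with rfl | rfl | rfl | rfl <;> norm_num
      obtain ⟨_, ⟨η, -, rfl⟩, h4⟩ := exists_lt_of_csInf_lt (ne.image _)
        (max_lt_iff.1 (hx x hx1.1)).2
      obtain ⟨h5, h6⟩ := max_lt_iff.1 h4
      have : f0 η = 0 := max_eq_left (by linarith [(abs_lt.1 h5).1, hx1.2])
      simp only [this, zero_sub, abs_neg, ev] at h6
      exact h6.le
  linarith [(abs_lt.1 h3).2]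

theorem result : ∃ f : ℝ → ℝ, ContinuousOn f (Icc (-1) 1) ∧ ConvexOn ℝ (Icc (-1) 1) f ∧
    MapsTo f (Icc (-1) 1) (Icc 0 1) ∧ E 2 (fun x => |x|) < E 2 f ∧ E 3 (fun x => |x|) < E 3 f := by
  have hE : ∀ n, n ≤ 3 → 7 / 50 ≤ E n f0 := fun n hn => by
    refine le_csInf ⟨_, 0, by simp, rfl⟩ ?_
    rintro _ ⟨p, hp, rfl⟩
    exact low p (hp.trans hn)
  refine ⟨f0, f0_cont.continuousOn, ?_, fun x hx => ⟨le_max_left _ _, ?_⟩, ?_, ?_⟩
  · refine (convexOn_const 0 (convex_Icc _ _)).sup ⟨convex_Icc _ _, ?_⟩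
    intro x _ y _ a b _ _ hab
    simp only [smul_eq_mul]
    exact le_of_eq (by linear_combination 9 * hab)
  · exact max_le zero_le_one (by linarith [hx.2])
  · linarith [E_abs 2 le_rfl, hE 2 (by norm_num)]
  · linarith [E_abs 3 (by norm_num), hE 3 le_rfl]

end Pool.Agent.Results.MP_170294_an.SteepEnd
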